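import Pool.Agent.helper21.BEY.SpecB
import Pool.Agent.helper40.LDH.KLZ

/-!
# Row KLS of project BEY (MP_4467b5_nt)
-/

set_option autoImplicit false

open Complex MeasureTheory

namespace Pool.Agent.BEY

open Pool.Agent.helper84.DM Pool.Agent.helper78.ED Pool.Agent.DH Pool.Agent.LDH

/-- the exponential sums -/
theorem KLS_exp (hKL : KL_stmt) (T M γ : ℝ) (N b : ℕ) (hT : 1 ≤ T) (hTM : T ≤ M) (hMN : M < (N : ℝ) + 1)
    (hb2 : (b : ℝ) ≤ 2 * M) (hγ : T ≤ γ) (hγ2 : γ ≤ 2 * T) (c : ℕ) (hcb : c ≤ b) :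
    ‖∑ n ∈ Finset.Ioc N c, ee (-(γ / (2 * Real.pi)) * Real.log (n : ℝ))‖ ≤ 8 * Real.pi * M / T := by
  have hpi := Real.pi_gt_three
  have hM0 : (0 : ℝ) < M := by linarith
  set f : ℕ → ℝ := fun n => -(γ / (2 * Real.pi)) * Real.log (n : ℝ) with hf
  set l : ℝ := T / (4 * Real.pi * M) with hl
  have hl0 : 0 < l := by positivity
  have hlb : l ≤ 1 / (4 * Real.pi) := by
    rw [hl, div_le_div_iff₀ (by positivity) (by positivity)]
    nlinarith
  have h4pi : 1 / (4 * Real.pi) ≤ 1 / 12 := by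
    apply one_div_le_one_div_of_le (by norm_num) (by linarith)
  have hγ0 : 0 ≤ γ / (2 * Real.pi) := by
    have : 0 ≤ γ := by linarith
    positivity
  have hdiff : ∀ n : ℕ, f (n + 1) - f n =
      -(γ / (2 * Real.pi) * (Real.log ((n + 1 : ℕ) : ℝ) - Real.log (n : ℝ))) := by
    intro n; rw [hf]; ring
  have h1 := hKL f N c l (-1) hl0 (by linarith) ?_ ?_
  · have h2 : 2 / l = 8 * Real.pi * M / T := by
      rw [hl]; field_simp; ring
    rw [← h2]; exact h1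
  · intro n hn hnc
    have hn1 : 1 ≤ n := by omega
    have hn0 : (0 : ℝ) < n := by exact_mod_cast hn1
    have hnM : M < n := by
      have : (N : ℝ) + 1 ≤ n := by exact_mod_cast hn
      linarith
    obtain ⟨a1, a2⟩ := KLZ_log n hn1
    rw [hdiff]
    constructor
    · have e1 : γ / (2 * Real.pi) * (Real.log ((n + 1 : ℕ) : ℝ) - Real.log (n : ℝ)) ≤
          γ / (2 * Real.pi) * (1 / n) := mul_le_mul_of_nonneg_left a1 hγ0
      have e2 : γ / (2 * Real.pi) * (1 / n) ≤ 1 / Real.pi := by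
        rw [div_mul_div_comm, mul_one, div_le_div_iff₀ (by positivity) (by positivity)]
        nlinarith [Real.pi_pos]
      have e4 : 1 / Real.pi ≤ 1 / 3 := one_div_le_one_div_of_le (by norm_num) hpi.le
      rw [Int.cast_neg, Int.cast_one]
      linarith
    · have e1 : γ / (2 * Real.pi) * (1 / ((n : ℝ) + 1)) ≤
          γ / (2 * Real.pi) * (Real.log ((n + 1 : ℕ) : ℝ) - Real.log (n : ℝ)) :=
        mul_le_mul_of_nonneg_left a2 hγ0
      have e2 : l ≤ γ / (2 * Real.pi) * (1 / ((n : ℝ) + 1)) := by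
        have e3 : (n : ℝ) + 1 ≤ 2 * M := by
          have : n + 1 ≤ b := by omega
          have h3 : ((n : ℝ) + 1) ≤ b := by exact_mod_cast this
          linarith
        rw [hl, div_mul_div_comm, mul_one, div_le_div_iff₀ (by positivity) (by positivity)]
        have e5 : T * (2 * Real.pi * (↑n + 1)) ≤ γ * (2 * Real.pi * (↑n + 1)) :=
          mul_le_mul_of_nonneg_right hγ (by positivity)
        have e6 : γ * (2 * Real.pi * (↑n + 1)) ≤ γ * (2 * Real.pi * (2 * M)) := by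
          apply mul_le_mul_of_nonneg_left _ (by linarith)
          apply mul_le_mul_of_nonneg_left e3 (by positivity)
        linarith
      rw [Int.cast_neg, Int.cast_one]
      linarith
  · left
    intro n hn _
    have hn1 : 1 ≤ n := by omega
    rw [hdiff]
    have e0 : f (n + 2) - f (n + 1) =
        -(γ / (2 * Real.pi) * (Real.log ((n + 2 : ℕ) : ℝ) - Real.log ((n + 1 : ℕ) : ℝ))) := by
      rw [hf]; ring
    rw [e0]
    have e1 := KLZ_mono n hn1
    have e2 := mul_le_mul_of_nonneg_left e1 hγ0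
    linarith

/-- variation of `n^(-σ)` over `n > M` -/
theorem KLS_var (M σ : ℝ) (N b : ℕ) (hM : 0 < M) (hσ : 0 ≤ σ) (hNM : (N : ℝ) ≤ M) (hMN : M < (N : ℝ) + 1)
    (hNb : N ≤ b) :
    ∑ n ∈ Finset.Ioo N b, |((n + 1 : ℕ) : ℝ) ^ (-σ) - (n : ℝ) ^ (-σ)| ≤ M ^ (-σ) := by
  have hmono : ∀ n : ℕ, N ≤ n → (max ((n + 1 : ℕ) : ℝ) M) ^ (-σ) ≤ (max (n : ℝ) M) ^ (-σ) := by
    intro n _
    apply Real.rpow_le_rpow_of_nonpos (lt_of_lt_of_le hM (le_max_right _ _)) _ (by linarith)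
    exact max_le_max (by push_cast; linarith) le_rfl
  have h1 := KLZ_var (fun n => (max (n : ℝ) M) ^ (-σ)) N b hNb hmono
  have h2 : (max (N : ℝ) M) = M := max_eq_right hNM
  simp only [h2] at h1
  have h3 : ∑ n ∈ Finset.Ioo N b, |((n + 1 : ℕ) : ℝ) ^ (-σ) - (n : ℝ) ^ (-σ)| =
      ∑ n ∈ Finset.Ioo N b, ((max (n : ℝ) M) ^ (-σ) - (max ((n + 1 : ℕ) : ℝ) M) ^ (-σ)) := by
    apply Finset.sum_congr rfl
    intro n hn
    have hn1 : (N : ℝ) + 1 ≤ n := by exact_mod_cast (Finset.mem_Ioo.mp hn).1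
    have hn2 : max (n : ℝ) M = n := max_eq_left (by linarith)
    have hn3 : max ((n + 1 : ℕ) : ℝ) M = ((n + 1 : ℕ) : ℝ) := max_eq_left (by push_cast; linarith)
    have h4 := hmono n (by have := (Finset.mem_Ioo.mp hn).1; omega)
    rw [hn2, hn3] at h4
    rw [hn2, hn3, abs_of_nonpos (by linarith)]
    ring
  rw [h3]
  have h5 : 0 ≤ (max (b : ℝ) M) ^ (-σ) := Real.rpow_nonneg (le_trans hM.le (le_max_right _ _)) _
  linarith

theorem KLS (hKL : KL_stmt) (hABL : ABL_stmt) (hPHF : PHF_stmt) : KLS_stmt := by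
  refine ⟨32 * Real.pi, by positivity, ?_⟩
  intro T M ρ hT hTM hσ hσ1 hγ hγ2
  obtain ⟨-, -, -, -, hpsi, hpsi1, -, -, -, hvar⟩ := hPHF
  have hpi := Real.pi_gt_three
  have hM0 : (0 : ℝ) < M := by linarith
  have hM1 : 1 ≤ M := by linarith
  set σ := ρ.re with hσd
  set γ := ρ.im with hγd
  obtain ⟨N, hN⟩ : ∃ N : ℕ, N = ⌊M⌋₊ := ⟨_, rfl⟩
  obtain ⟨b, hb⟩ : ∃ b : ℕ, b = ⌊2 * M⌋₊ := ⟨_, rfl⟩
  have hNM : (N : ℝ) ≤ M := by rw [hN]; exact Nat.floor_le hM0.le
  have hMN : M < (N : ℝ) + 1 := by rw [hN]; exact Nat.lt_floor_add_one M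
  have hb2 : (b : ℝ) ≤ 2 * M := by rw [hb]; exact Nat.floor_le (by linarith)
  have hMb : M ≤ b := by
    have : 2 * M < (b : ℝ) + 1 := by rw [hb]; exact Nat.lt_floor_add_one _
    linarith
  have hNb : N ≤ b := by
    have : (N : ℝ) ≤ b := by linarith
    exact_mod_cast this
  set v : ℕ → ℝ := fun n => psi ((n : ℝ) / M) * (n : ℝ) ^ (-σ) with hv
  have hMain := hABL v (fun n => ee (-(γ / (2 * Real.pi)) * Real.log (n : ℝ))) N b _ hNb
    (fun c _ hcb => KLS_exp hKL T M γ N b hT hTM hMN hb2 hγ hγ2 c hcb)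
  -- the sum
  have hsum : Ps M ρ = ∑ n ∈ Finset.Ioc N b, ((v n : ℝ) : ℂ) *
      ee (-(γ / (2 * Real.pi)) * Real.log (n : ℝ)) := by
    have h1 : Ps M ρ = ∑ n ∈ Finset.Ioc N b, ((psi ((n : ℝ) / M) : ℝ) : ℂ) * (n : ℂ) ^ (-ρ) := by
      rw [Ps, ← hb]
      symm
      apply Finset.sum_subset
      · intro n hn
        have := Finset.mem_Ioc.1 hn
        exact Finset.mem_Icc.2 ⟨by omega, this.2⟩
      · intro n hn hn2
        have h2 := Finset.mem_Icc.1 hn
        have h3 : n ≤ N := by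
          by_contra h4
          exact hn2 (Finset.mem_Ioc.2 ⟨by omega, h2.2⟩)
        have h5 : (n : ℝ) ≤ M := le_trans (by exact_mod_cast h3) hNM
        rw [hpsi1 _ ((div_le_one hM0).2 h5)]
        simp
    rw [h1]
    apply Finset.sum_congr rfl
    intro n hn
    have hn1 : 1 ≤ n := by have := (Finset.mem_Ioc.mp hn).1; omega
    have hn0 : (0 : ℝ) < n := by exact_mod_cast hn1
    have hnc : (n : ℂ) ≠ 0 := by exact_mod_cast hn0.ne'
    have h6 : (n : ℂ) ^ (-ρ) = (((n : ℝ) ^ (-σ) : ℝ) : ℂ) * ee (-(γ / (2 * Real.pi)) * Real.log (n : ℝ)) := by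
      rw [Complex.cpow_def_of_ne_zero hnc, Real.rpow_def_of_pos hn0, Complex.ofReal_exp]
      unfold ee
      rw [← Complex.exp_add]
      congr 1
      rw [← Complex.natCast_log]
      have hρ : ρ = (σ : ℂ) + (γ : ℂ) * I := (Complex.re_add_im ρ).symm
      rw [hρ]
      push_cast
      have hpi0 : (Real.pi : ℂ) ≠ 0 := by exact_mod_cast Real.pi_ne_zero
      field_simp
      ring
    rw [h6, hv, Complex.ofReal_mul, mul_assoc]
  -- the variation
  have hpow : ∀ n : ℕ, M ≤ (n : ℝ) → (n : ℝ) ^ (-σ) ≤ M ^ (-σ) := by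
    intro n hn
    exact Real.rpow_le_rpow_of_nonpos hM0 hn (by linarith)
  have hpow0 : ∀ n : ℕ, 0 ≤ (n : ℝ) ^ (-σ) := fun n => Real.rpow_nonneg (Nat.cast_nonneg n) _
  have hMσ : 0 ≤ M ^ (-σ) := Real.rpow_nonneg hM0.le _
  have hvb : |v b| ≤ M ^ (-σ) := by
    rw [hv]
    have h1 := hpsi ((b : ℝ) / M)
    rw [abs_of_nonneg (mul_nonneg h1.1 (hpow0 b))]
    calc psi ((b : ℝ) / M) * (b : ℝ) ^ (-σ) ≤ 1 * (b : ℝ) ^ (-σ) :=
          mul_le_mul_of_nonneg_right h1.2 (hpow0 b)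
      _ = (b : ℝ) ^ (-σ) := one_mul _
      _ ≤ _ := hpow b hMb
  have hvv : ∑ n ∈ Finset.Ioo N b, |v (n + 1) - v n| ≤ 3 * M ^ (-σ) := by
    have h1 : ∀ n ∈ Finset.Ioo N b, |v (n + 1) - v n| ≤
        |psi (((n + 1 : ℕ) : ℝ) / M) - psi ((n : ℝ) / M)| * M ^ (-σ) +
          |((n + 1 : ℕ) : ℝ) ^ (-σ) - (n : ℝ) ^ (-σ)| := by
      intro n hn
      have hn1 : (N : ℝ) + 1 ≤ n := by exact_mod_cast (Finset.mem_Ioo.mp hn).1
      have e : v (n + 1) - v n = (psi (((n + 1 : ℕ) : ℝ) / M) - psi ((n : ℝ) / M)) *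
          ((n + 1 : ℕ) : ℝ) ^ (-σ) + psi ((n : ℝ) / M) *
          (((n + 1 : ℕ) : ℝ) ^ (-σ) - (n : ℝ) ^ (-σ)) := by
        rw [hv]; ring
      rw [e]
      refine (abs_add_le _ _).trans (add_le_add ?_ ?_)
      · rw [abs_mul, abs_of_nonneg (hpow0 (n + 1))]
        exact mul_le_mul_of_nonneg_left (hpow (n + 1) (by push_cast; linarith)) (abs_nonneg _)
      · rw [abs_mul]
        have h2 := hpsi ((n : ℝ) / M)
        rw [abs_of_nonneg h2.1]
        exact mul_le_of_le_one_left (abs_nonneg _) h2.2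
    refine (Finset.sum_le_sum h1).trans ?_
    rw [Finset.sum_add_distrib, ← Finset.sum_mul]
    have h3 := hvar M N b hM0
    have h4 := KLS_var M σ N b hM0 (by linarith) hNM hMN hNb
    have h5 := mul_le_mul_of_nonneg_right h3 hMσ
    linarith
  rw [hsum]
  refine hMain.trans ?_
  calc 8 * Real.pi * M / T * (|v b| + ∑ n ∈ Finset.Ioo N b, |v (n + 1) - v n|) ≤
      8 * Real.pi * M / T * (4 * M ^ (-σ)) :=
        mul_le_mul_of_nonneg_left (by linarith) (by positivity)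
    _ = 32 * Real.pi * (M ^ (1 - σ) / T) := by
      rw [sub_eq_add_neg, Real.rpow_add hM0, Real.rpow_one]
      ring

end Pool.Agent.BEY
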