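import Pool.Agent.helper5.BEY.SpecA

/-!
# Row BLK of project BEY (MP_4467b5_nt)
-/

set_option autoImplicit false

open Complex MeasureTheory

namespace Pool.Agent.BEY

theorem BLK (hMST : MST_stmt) : BLK_stmt := by
  intro ε hε
  obtain ⟨C, hC, hM⟩ := hMST (ε / 2) (by positivity)
  refine ⟨4 * C, by positivity, ?_⟩
  intro w T M G W hw hM1 hMT hG hWT hWsep hWclose hWlarge
  have hT1 : 1 ≤ T := le_trans hM1 hMT
  have hT0 : 0 < T := by linarith
  have hTε : T ^ (ε / 2) ≤ T ^ ε := Real.rpow_le_rpow_of_exponent_le hT1 (by linarith)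
  have hTε1 : 1 ≤ T ^ (ε / 2) := Real.one_le_rpow hT1 (by positivity)
  have hG2 : 2 * T ^ (ε / 2) ≤ G := by linarith
  have hG0 : 0 < G := by linarith
  have h1 := hM w T M G (G ^ 3) W hw hM1 hMT hG2 (by positivity) hWT hWsep hWclose
  set R : ℝ := (W.card : ℝ) with hR
  have hR0 : 0 ≤ R := by positivity
  -- the third term
  have h3 : (G ^ 3 : ℝ) ^ (1 / 4 : ℝ) * G ^ (-(3 / 4) : ℝ) = 1 := by
    rw [← Real.rpow_natCast G 3, ← Real.rpow_mul hG0.le, ← Real.rpow_add hG0]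
    norm_num
  set Y : ℝ := T ^ (1 / 2 : ℝ) * R ^ (1 / 2 : ℝ) * G ^ (-(3 / 2) : ℝ) with hY
  have hY0 : 0 ≤ Y := by positivity
  have h4 : R * (G ^ 3) ^ (1 / 4 : ℝ) * G ^ (-(3 / 4) : ℝ) = R := by
    rw [mul_assoc, h3, mul_one]
  rw [h4] at h1
  -- lower bound
  have h5 : R * (4 * C * T ^ ε * M) ≤ ∑ t ∈ W, FG w M G t := by
    rw [hR, ← nsmul_eq_mul]
    exact Finset.card_nsmul_le_sum _ _ _ hWlarge
  have hM0 : 0 < M := by linarith
  have h6 : R * (4 * C * T ^ (ε / 2) * M) ≤ C * T ^ (ε / 2) * M * (R + Y + R) := by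
    refine le_trans (mul_le_mul_of_nonneg_left ?_ hR0) (le_trans h5 h1)
    have : 0 ≤ 4 * C := by positivity
    exact mul_le_mul_of_nonneg_right (mul_le_mul_of_nonneg_left hTε this) hM0.le
  have hpos : 0 < C * T ^ (ε / 2) * M := by positivity
  have h7 : 4 * R ≤ R + Y + R := by
    have : C * T ^ (ε / 2) * M * (4 * R) ≤ C * T ^ (ε / 2) * M * (R + Y + R) := by
      calc C * T ^ (ε / 2) * M * (4 * R) = R * (4 * C * T ^ (ε / 2) * M) := by ring
        _ ≤ _ := h6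
    exact le_of_mul_le_mul_left this hpos
  have h8 : R ≤ Y := by linarith
  rcases hR0.eq_or_lt with h0 | hpR
  · rw [← h0]; positivity
  · have h9 : Y ^ 2 = T * R * G ^ (-3 : ℝ) := by
      rw [hY, mul_pow, mul_pow, ← Real.rpow_natCast, ← Real.rpow_natCast, ← Real.rpow_natCast,
        ← Real.rpow_mul hT0.le, ← Real.rpow_mul hR0, ← Real.rpow_mul hG0.le]
      norm_num
    have h10 : R ^ 2 ≤ Y ^ 2 := by
      exact pow_le_pow_left₀ hR0 h8 2
    rw [h9] at h10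
    have h11 : R * R ≤ R * (T * G ^ (-3 : ℝ)) := by
      calc R * R = R ^ 2 := by ring
        _ ≤ T * R * G ^ (-3 : ℝ) := h10
        _ = _ := by ring
    exact le_of_mul_le_mul_left h11 hpR

end Pool.Agent.BEY
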